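import Pool.Agent.Y408.BS.Sh2
import Pool.Agent.W500.KS.Alg
import Pool.Agent.W837.KS.Pn
import Pool.Agent.W101.KS.PL
import Pool.Agent.W253.KS.Ev
import Pool.Agent.W646.KS.T1
import Pool.Agent.W349.KS.T1EO
import Pool.Agent.W837.KS.Exp
import Pool.Agent.W646.KS.Ind
import Pool.Agent.Y131.KS.Odd
import Pool.Agent.Y131.KS.Alm
import Pool.Agent.Y131.KS.Sub

/-!
# Coloured shifting of all types and the van Kampen obstruction

Let `K` be a simplicial complex with vertices `0, ..., n-1` such that the mod `2` obstruction of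
the deleted join of `K` to an odd map to the sphere `S^(2δ)` vanishes. This is a purely homological
condition; it holds if `K` embeds in `S^(2δ)`, if it almost embeds, if there is an odd map from the
deleted join to `ℝ^(2δ+1)` without zeros, and if `K` is a subcomplex of a mod `2` homology sphere of
dimension `2δ`. Let `k` be an infinite field of characteristic `0` or `2`.

* If the vertices are coloured with `δ + 1` colours then the balanced shifting of `K` with respect
  to any `(2, ..., 2)`-admissible order does not contain the join of `δ + 1` copies of three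
  points. (Q1 is the case where `K` is balanced and embedded in `S^(2δ)`, over the reals.)
* For every type `a = (a_0, ..., a_m)` with `∑ a_i = δ + 1`, the coloured (symmetric) shifting of
  type `a` with respect to any `(2 a_0, ..., 2 a_m)`-admissible order does not contain the join,
  over the colours `i`, of the `(a_i - 1)`-skeleta of the simplices with `2 a_i + 1` vertices of
  colour `i`. The type `(1, ..., 1)` is the balanced shifting, see `colouredShiftWith_one`.
-/

set_option autoImplicit false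

namespace Pool.Agent.Results.MP_55fadc_co.AllTypes

open Finset MvPolynomial

/-- simplicial complex with vertices among `0, ..., n-1`: a family of finsets containing the
empty set and closed under taking subsets -/
def IsComplex {n : ℕ} (K : Finset (Finset (Fin n))) : Prop :=
  ∅ ∈ K ∧ ∀ σ ∈ K, ∀ τ : Finset (Fin n), τ ⊆ σ → τ ∈ K

/-! ### shifting -/

/-- number of smaller vertices of the same colour -/
def crank {n m : ℕ} (κ : Fin n → Fin (m + 1)) (v : Fin n) : ℕ :=
  (univ.filter (fun w => κ w = κ v ∧ w < v)).card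

/-- the order is `(2 a_0, ..., 2 a_m)`-admissible: the vertices which are among the `2 a_i`
smallest of their colour class (`i` their colour) form an initial segment -/
def Admissible {n m : ℕ} (κ : Fin n → Fin (m + 1)) (a : Fin (m + 1) → ℕ) : Prop :=
  ∀ u v : Fin n, v < u → crank κ u < 2 * a (κ u) → crank κ v < 2 * a (κ v)

/-- the Stanley-Reisner ideal, generated by the squarefree monomials of the non-faces -/
noncomputable def srIdeal {n : ℕ} (k : Type*) [Field k] (K : Finset (Finset (Fin n))) :
    Ideal (MvPolynomial (Fin n) k) :=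
  Ideal.span {p | ∃ σ : Finset (Fin n), σ ∉ K ∧ p = ∏ v ∈ σ, X v}

/-- the linear form `θ_v = ∑_w Θ_vw x_w`, sum over the vertices `w` of the colour of `v` -/
noncomputable def theta {n m : ℕ} (κ : Fin n → Fin (m + 1)) {k : Type*} [Field k]
    (Θ : Fin n × Fin n → k) (v : Fin n) : MvPolynomial (Fin n) k :=
  ∑ w ∈ univ.filter (fun w => κ w = κ v), C (Θ (v, w)) * X w

/-- lexicographic order on sets of vertices: the smallest element of the symmetric difference is
in `F` -/
def LexLT {n : ℕ} (F G : Finset (Fin n)) : Prop :=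
  ∃ x ∈ F, x ∉ G ∧ ∀ y, y < x → (y ∈ F ↔ y ∈ G)

/-- balanced shifting with the matrix `Θ`: a set `F` with at most one vertex of each colour is
kept iff `θ_F`, the product of the `θ_v`, `v ∈ F`, is not in the span of the `θ_G` with `G`
lexicographically smaller and of the same colours, in the Stanley-Reisner ring -/
def shiftWith {n m : ℕ} (κ : Fin n → Fin (m + 1)) (k : Type*) [Field k] (Θ : Fin n × Fin n → k)
    (K : Finset (Finset (Fin n))) : Set (Finset (Fin n)) :=
  {F | Set.InjOn κ (F : Set (Fin n)) ∧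
    (Ideal.Quotient.mk (srIdeal k K) (∏ v ∈ F, theta κ Θ v)) ∉
      Submodule.span k {y | ∃ G : Finset (Fin n), Set.InjOn κ (G : Set (Fin n)) ∧
        G.image κ = F.image κ ∧ LexLT G F ∧
        y = Ideal.Quotient.mk (srIdeal k K) (∏ v ∈ G, theta κ Θ v)}}

/-- the sets which are in `S Θ` for generic `Θ`, that is for all `Θ` outside some proper
hypersurface -/
def Generic {n : ℕ} {k : Type*} [Field k] (S : (Fin n × Fin n → k) → Set (Finset (Fin n))) :
    Set (Finset (Fin n)) :=
  {F | ∃ P : MvPolynomial (Fin n × Fin n) k, P ≠ 0 ∧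
    ∀ Θ : Fin n × Fin n → k, eval Θ P ≠ 0 → F ∈ S Θ}

/-- `Q` contains the join of `r` copies of three points -/
def ContainsJoin {n : ℕ} (r : ℕ) (Q : Set (Finset (Fin n))) : Prop :=
  ∃ e : Fin r × Fin 3 → Fin n, Function.Injective e ∧
    ∀ s : Fin r → Fin 3, univ.image (fun i => e (i, s i)) ∈ Q

/-! ### coloured shifting of arbitrary type -/

open Classical in
/-- for `v ∈ F`: the vertex of the colour of `v` whose rank in this colour is the rank of `v` plus
the number of elements of `F` of this colour which are larger than `v` (it exists) -/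
noncomputable def up {n m : ℕ} (κ : Fin n → Fin (m + 1)) (F : Finset (Fin n)) (v : Fin n) : Fin n :=
  if h : ∃ x, κ x = κ v ∧
    crank κ x = crank κ v + (F.filter (fun w => κ w = κ v ∧ v < w)).card then h.choose else v

/-- the monomial (exponent vector) of the set `F`: Kalai's squarefree operation, which sends the
monomial of indices `j_1 ≤ ... ≤ j_r` to the set `{j_1 - r + 1, ..., j_(r-1) - 1, j_r}`, applied in
every colour class, sends the monomial `expo κ F` to `F` -/
noncomputable def expo {n m : ℕ} (κ : Fin n → Fin (m + 1)) (F : Finset (Fin n)) : Fin n →₀ ℕ :=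
  ∑ v ∈ F, Finsupp.single (up κ F v) 1

/-- the product of the `θ_v ^ (u v)` -/
noncomputable def thetaPow {n m : ℕ} (κ : Fin n → Fin (m + 1)) {k : Type*} [Field k]
    (Θ : Fin n × Fin n → k) (u : Fin n →₀ ℕ) : MvPolynomial (Fin n) k :=
  ∏ v, theta κ Θ v ^ u v

/-- degree in the variables of colour `i` -/
def degreeIn {n m : ℕ} (κ : Fin n → Fin (m + 1)) (u : Fin n →₀ ℕ) (i : Fin (m + 1)) : ℕ :=
  ∑ v ∈ univ.filter (fun v => κ v = i), u v

/-- lexicographic order on monomials: at the first place where they differ `u` is larger (smaller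
vertices are used more) -/
def MonLexLT {n : ℕ} (u u' : Fin n →₀ ℕ) : Prop := ∃ x, u' x < u x ∧ ∀ y, y < x → u y = u' y

/-- coloured shifting of type `a` with the matrix `Θ`: a set `F` with at most `a i` vertices of
each colour `i` is kept iff the product of the `θ`s given by the monomial of `F` is not in the
span of the lexicographically smaller ones of the same multidegree, in the Stanley-Reisner ring -/
def colouredShiftWith {n m : ℕ} (κ : Fin n → Fin (m + 1)) (a : Fin (m + 1) → ℕ) (k : Type*)
    [Field k] (Θ : Fin n × Fin n → k) (K : Finset (Finset (Fin n))) : Set (Finset (Fin n)) :=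
  {F | (∀ i, (F.filter (fun v => κ v = i)).card ≤ a i) ∧
    (Ideal.Quotient.mk (srIdeal k K) (thetaPow κ Θ (expo κ F))) ∉
      Submodule.span k {y | ∃ u : Fin n →₀ ℕ, (∀ i, degreeIn κ u i = degreeIn κ (expo κ F) i) ∧
        MonLexLT u (expo κ F) ∧ y = Ideal.Quotient.mk (srIdeal k K) (thetaPow κ Θ u)}}

/-- `Q` contains the join of the `(a i - 1)`-skeleta of simplices with `2 (a i) + 1` vertices of
colour `i`: there is a set `W` with `2 (a i) + 1` vertices of each colour `i` such that all subsets
of `W` with `a i` vertices of each colour `i` are in `Q` -/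
def ContainsSkeletonJoin {n m : ℕ} (κ : Fin n → Fin (m + 1)) (a : Fin (m + 1) → ℕ)
    (Q : Set (Finset (Fin n))) : Prop :=
  ∃ W : Finset (Fin n), (∀ i, (W.filter (fun v => κ v = i)).card = 2 * a i + 1) ∧
    ∀ F ⊆ W, (∀ i, (F.filter (fun v => κ v = i)).card = a i) → F ∈ Q

/-! ### the obstruction -/

/-- elements of `U` of even rank (the smallest element has rank `0`) -/
def evens {n : ℕ} (U : Finset (Fin n)) : Finset (Fin n) :=
  U.filter (fun u => Even (U.filter (fun w => w < u)).card)

/-- elements of `U` of odd rank -/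
def odds {n : ℕ} (U : Finset (Fin n)) : Finset (Fin n) :=
  U.filter (fun u => ¬ Even (U.filter (fun w => w < u)).card)

/-- the obstruction vanishes. The simplices of the deleted join of `L` are the pairs `(σ, τ)` of
disjoint faces; `Z` is a chain of dimension `d` (only its values at pairs with `d + 1` vertices
matter) with coefficients modulo `2`, symmetric under the exchange of `σ` and `τ`, and its boundary
is zero. The sum is over the alternating simplices; it is the value at `Z / (ℤ/2)` of the `d`-th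
power of the class of the double covering of the deleted join -/
def ObstructionVanishes {n : ℕ} (L : Finset (Finset (Fin n))) (d : ℕ) : Prop :=
  ∀ Z : Finset (Fin n) → Finset (Fin n) → ZMod 2,
    (∀ σ τ, Z σ τ = Z τ σ) →
    (∀ σ τ, Z σ τ ≠ 0 → σ ∈ L ∧ τ ∈ L) →
    (∀ ρ τ : Finset (Fin n), Disjoint ρ τ → ρ.card + τ.card = d →
      ∑ v ∈ (ρ ∪ τ)ᶜ, (Z (insert v ρ) τ + Z ρ (insert v τ)) = 0) →
    ∑ U ∈ powersetCard (d + 1) univ, Z (evens U) (odds U) = 0

/-- the deleted join of `L`: the vectors of `ℓ¹`-norm `1` whose positive and negative supports are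
faces -/
def deletedJoin {n : ℕ} (L : Finset (Finset (Fin n))) : Set (Fin n → ℝ) :=
  {x | ∑ i, |x i| = 1 ∧ univ.filter (fun i => 0 < x i) ∈ L ∧ univ.filter (fun i => x i < 0) ∈ L}

/-- there is an odd map from the deleted join of `L` to `ℝ^d` without zeros -/
def HasOddMap {n : ℕ} (L : Finset (Finset (Fin n))) (d : ℕ) : Prop :=
  ∃ f : (Fin n → ℝ) → (Fin d → ℝ), ContinuousOn f (deletedJoin L) ∧
    ∀ x ∈ deletedJoin L, f (-x) = -f x ∧ f x ≠ 0

/-- the geometric realization, in barycentric coordinates -/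
def realization {n : ℕ} (L : Finset (Finset (Fin n))) : Set (Fin n → ℝ) :=
  {x | (∀ i, 0 ≤ x i) ∧ ∑ i, x i = 1 ∧ ∃ σ ∈ L, ∀ i, i ∉ σ → x i = 0}

/-- topologically embeddable in the sphere `S^(d-1)`, the unit sphere of `ℝ^d` -/
def EmbedsInSphere {n : ℕ} (L : Finset (Finset (Fin n))) (d : ℕ) : Prop :=
  ∃ f : realization L → Metric.sphere (0 : EuclideanSpace ℝ (Fin d)) 1, Topology.IsEmbedding f

/-- `L` almost embeds in `S^(d-1)`: there is a continuous map such that points of disjoint faces
have different images -/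
def AlmostEmbeds {n : ℕ} (L : Finset (Finset (Fin n))) (d : ℕ) : Prop :=
  ∃ f : realization L → Metric.sphere (0 : EuclideanSpace ℝ (Fin d)) 1, Continuous f ∧
    ∀ x y : realization L, (∀ i, (x : Fin n → ℝ) i = 0 ∨ (y : Fin n → ℝ) i = 0) → f x ≠ f y

/-! ### homology spheres -/

/-- the chain `c`, with coefficients modulo `2`, is supported on the faces of `K` with `j`
vertices -/
def SupportedOn {N : ℕ} (K : Finset (Finset (Fin N))) (j : ℕ) (c : Finset (Fin N) → ZMod 2) :
    Prop :=
  ∀ σ, c σ ≠ 0 → σ ∈ K ∧ σ.card = j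

/-- the boundary of a chain (the augmentation is included: the empty face has dimension `-1`) -/
def boundary {N : ℕ} (c : Finset (Fin N) → ZMod 2) (ρ : Finset (Fin N)) : ZMod 2 :=
  ∑ v ∈ ρᶜ, c (insert v ρ)

/-- the reduced mod `2` homology of `K` vanishes in dimension `j - 1` -/
def AcyclicAt {N : ℕ} (K : Finset (Finset (Fin N))) (j : ℕ) : Prop :=
  ∀ c : Finset (Fin N) → ZMod 2, SupportedOn K j c → (∀ ρ, boundary c ρ = 0) →
    ∃ b, SupportedOn K (j + 1) b ∧ ∀ ρ, c ρ = boundary b ρ

/-- the link of the face `σ` -/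
def link {N : ℕ} (K : Finset (Finset (Fin N))) (σ : Finset (Fin N)) : Finset (Finset (Fin N)) :=
  univ.filter (fun τ => Disjoint τ σ ∧ τ ∪ σ ∈ K)

/-- mod `2` homology spheres of dimension `d - 1`: the link of every face `σ` (also of the empty
face) has the reduced mod `2` homology of a sphere of dimension `d - 1 - |σ|` -/
def IsHomologySphere {N : ℕ} (K : Finset (Finset (Fin N))) (d : ℕ) : Prop :=
  IsComplex K ∧ (∀ σ ∈ K, σ.card ≤ d) ∧
    (∀ σ ∈ K, ∀ j, j + σ.card ≠ d → AcyclicAt (link K σ) j) ∧
    ∀ σ ∈ K, ∃ z : Finset (Fin N) → ZMod 2, z ≠ 0 ∧ SupportedOn (link K σ) (d - σ.card) z ∧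
      (∀ ρ, boundary z ρ = 0) ∧
      ∀ z', SupportedOn (link K σ) (d - σ.card) z' → (∀ ρ, boundary z' ρ = 0) → z' = 0 ∨ z' = z

/-- `L` is (isomorphic to) a subcomplex of a mod `2` homology sphere of dimension `d - 1` -/
def InHomologySphere {n : ℕ} (L : Finset (Finset (Fin n))) (d : ℕ) : Prop :=
  ∃ (N : ℕ) (K : Finset (Finset (Fin N))) (f : Fin n ↪ Fin N), IsHomologySphere K d ∧
    ∀ σ ∈ L, σ.map f ∈ K

/-! ### checks of the definitions -/

/-- if the shifting with `Θ` is the same for all `Θ` outside a proper hypersurface then this is the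
generic one -/
theorem generic_eq {n : ℕ} {k : Type*} [Field k] [Infinite k]
    (S : (Fin n × Fin n → k) → Set (Finset (Fin n))) (Q : Set (Finset (Fin n)))
    (P : MvPolynomial (Fin n × Fin n) k) (hP : P ≠ 0)
    (h : ∀ Θ : Fin n × Fin n → k, eval Θ P ≠ 0 → S Θ = Q) : Generic S = Q := by
  ext F
  constructor
  · rintro ⟨P', hP', h'⟩
    obtain ⟨Θ, hΘ⟩ : ∃ Θ : Fin n × Fin n → k, eval Θ (P * P') ≠ 0 := by
      by_contra hcon
      push Not at hcon
      apply mul_ne_zero hP hP'
      apply MvPolynomial.funext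
      intro g
      rw [hcon g, map_zero]
    rw [map_mul] at hΘ
    rw [← h Θ (left_ne_zero_of_mul hΘ)]
    exact h' Θ (right_ne_zero_of_mul hΘ)
  · intro hF
    exact ⟨P, hP, fun Θ hΘ => by rw [h Θ hΘ]; exact hF⟩

/-- exponent vector of a squarefree monomial -/
noncomputable def ind {n : ℕ} (F : Finset (Fin n)) : Fin n →₀ ℕ := ∑ v ∈ F, Finsupp.single v 1

theorem ind_apply {n : ℕ} (F : Finset (Fin n)) (v : Fin n) : ind F v = if v ∈ F then 1 else 0 := by
  classical
  unfold ind
  rw [Finsupp.finsetSum_apply]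
  simp only [Finsupp.single_apply]
  rw [Finset.sum_ite_eq']

theorem degreeIn_ind {n m : ℕ} (κ : Fin n → Fin (m + 1)) (F : Finset (Fin n)) (i : Fin (m + 1)) :
    degreeIn κ (ind F) i = (F.filter (fun v => κ v = i)).card := by
  classical
  unfold degreeIn
  simp only [ind_apply]
  rw [← Finset.sum_filter, Finset.sum_const, smul_eq_mul, mul_one, Finset.filter_filter]
  congr 1
  ext v
  simp only [mem_filter, mem_univ, true_and]
  exact and_comm

theorem thetaPow_ind {n m : ℕ} (κ : Fin n → Fin (m + 1)) {k : Type*} [Field k]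
    (Θ : Fin n × Fin n → k) (F : Finset (Fin n)) :
    thetaPow κ Θ (ind F) = ∏ v ∈ F, theta κ Θ v := by
  classical
  unfold thetaPow
  simp only [ind_apply]
  rw [← Finset.prod_subset (Finset.subset_univ F)]
  · exact Finset.prod_congr rfl (fun v hv => by rw [if_pos hv, pow_one])
  · intro v _ hv
    rw [if_neg hv, pow_zero]

theorem card_le_one_iff' {n m : ℕ} (κ : Fin n → Fin (m + 1)) (F : Finset (Fin n)) :
    (∀ i, (F.filter (fun v => κ v = i)).card ≤ 1) ↔ Set.InjOn κ (F : Set (Fin n)) := by
  constructor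
  · intro h x hx y hy hxy
    exact Finset.card_le_one.1 (h (κ x)) x (mem_filter.2 ⟨hx, rfl⟩) y
      (mem_filter.2 ⟨hy, hxy.symm⟩)
  · intro h i
    rw [Finset.card_le_one]
    intro x hx y hy
    rw [mem_filter] at hx hy
    exact h hx.1 hy.1 (hx.2.trans hy.2.symm)

/-- for the type `(1, ..., 1)` the coloured shifting is the balanced shifting -/
theorem colouredShiftWith_one {n m : ℕ} (κ : Fin n → Fin (m + 1)) (k : Type*) [Field k]
    (Θ : Fin n × Fin n → k) (K : Finset (Finset (Fin n))) :
    colouredShiftWith κ (fun _ => 1) k Θ K = shiftWith κ k Θ K := by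
  classical
  ext F
  unfold colouredShiftWith shiftWith
  rw [Set.mem_ofPred_eq, Set.mem_ofPred_eq, card_le_one_iff']
  apply and_congr_right
  intro hF
  have hup : ∀ v ∈ F, up κ F v = v := by
    intro v hv
    have h := Y408.BS.up_spec κ F v
    have h0 : (F.filter (fun w => κ w = κ v ∧ v < w)).card = 0 := by
      rw [Finset.card_eq_zero, Finset.filter_eq_empty_iff]
      rintro w hw ⟨h1, h2⟩
      exact absurd (hF hw hv h1) h2.ne'
    rw [h0, add_zero] at h
    exact Y408.BS.crank_inj h.1 h.2
  have hexp : expo κ F = ind F := Finset.sum_congr rfl (fun v hv => by rw [hup v hv])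
  rw [hexp, thetaPow_ind]
  have hset : {y | ∃ u : Fin n →₀ ℕ, (∀ i, degreeIn κ u i = degreeIn κ (ind F) i) ∧
      MonLexLT u (ind F) ∧ y = Ideal.Quotient.mk (srIdeal k K) (thetaPow κ Θ u)} =
      {y | ∃ G : Finset (Fin n), Set.InjOn κ (G : Set (Fin n)) ∧
        G.image κ = F.image κ ∧ LexLT G F ∧
        y = Ideal.Quotient.mk (srIdeal k K) (∏ v ∈ G, theta κ Θ v)} := by
    have hlex : ∀ G : Finset (Fin n), MonLexLT (ind G) (ind F) ↔ LexLT G F := by
      intro G
      unfold MonLexLT LexLT
      simp only [ind_apply]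
      constructor
      · rintro ⟨x, h1, h2⟩
        refine ⟨x, ?_, ?_, ?_⟩
        · by_contra h
          rw [if_neg h] at h1
          omega
        · intro h
          rw [if_pos h] at h1
          split_ifs at h1 <;> omega
        · intro y hy
          have := h2 y hy
          split_ifs at this with h3 h4 h4
          · exact iff_of_true h3 h4
          · exact iff_of_false h3 h4
      · rintro ⟨x, h1, h2, h3⟩
        refine ⟨x, by rw [if_pos h1, if_neg h2]; omega, ?_⟩
        intro y hy
        have := h3 y hy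
        by_cases h4 : y ∈ G
        · rw [if_pos h4, if_pos (this.1 h4)]
        · rw [if_neg h4, if_neg (fun h => h4 (this.2 h))]
    have himg : ∀ G : Finset (Fin n), Set.InjOn κ (G : Set (Fin n)) → ∀ i,
        (G.filter (fun v => κ v = i)).card = if i ∈ G.image κ then 1 else 0 := by
      intro G hG i
      split_ifs with h
      · obtain ⟨v, hv, hvi⟩ := Finset.mem_image.1 h
        apply le_antisymm ((card_le_one_iff' κ G).2 hG i)
        exact Finset.card_pos.2 ⟨v, mem_filter.2 ⟨hv, hvi⟩⟩
      · rw [Finset.card_eq_zero, Finset.filter_eq_empty_iff]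
        intro v hv hvi
        exact h (Finset.mem_image.2 ⟨v, hv, hvi⟩)
    ext y
    constructor
    · rintro ⟨u, hu1, hu2, rfl⟩
      have hle : ∀ i, degreeIn κ u i ≤ 1 := by
        intro i
        rw [hu1, degreeIn_ind]
        exact (card_le_one_iff' κ F).2 hF i
      have hu : u = ind u.support := by
        ext v
        rw [ind_apply]
        have h1 : u v ≤ degreeIn κ u (κ v) :=
          Finset.single_le_sum (f := fun v => u v) (fun _ _ => Nat.zero_le _)
            (mem_filter.2 ⟨mem_univ v, rfl⟩)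
        have h2 := hle (κ v)
        split_ifs with h3
        · have := Finsupp.mem_support_iff.1 h3
          omega
        · exact Finsupp.notMem_support_iff.1 h3
      have hinj : Set.InjOn κ (u.support : Set (Fin n)) := by
        rw [← card_le_one_iff']
        intro i
        rw [← degreeIn_ind, ← hu]
        exact hle i
      refine ⟨u.support, hinj, ?_, ?_, ?_⟩
      · ext i
        have h1 := hu1 i
        rw [hu, degreeIn_ind, degreeIn_ind, himg _ hinj, himg _ hF] at h1
        split_ifs at h1 with h2 h3 h3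
        · exact iff_of_true h2 h3
        · exact iff_of_false h2 h3
      · rw [← hlex, ← hu]
        exact hu2
      · rw [← thetaPow_ind, ← hu]
    · rintro ⟨G, hG1, hG2, hG3, rfl⟩
      refine ⟨ind G, ?_, (hlex G).2 hG3, by rw [thetaPow_ind]⟩
      intro i
      rw [degreeIn_ind, degreeIn_ind, himg G hG1, himg F hF, hG2]
  rw [hset]

/-! ### the theorem -/

theorem t1e : W555.KS.StT1E :=
  W349.KS.t1e (W646.KS.t1 W837.KS.exp) (W500.KS.alg W837.KS.pn W101.KS.PL.pl W253.KS.ev)

theorem vk_of {n δ : ℕ} {K : Finset (Finset (Fin n))} (h : ObstructionVanishes K (2 * δ + 1)) :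
    W555.KS.VK K (2 * δ + 1 + 1) := by
  apply Y131.KS.vk_of_vk2
  intro Z h1 h2 h3
  exact h Z h1 h2 (fun ρ τ a b => h3 ρ τ a (by omega))

/-- a generic set which is not generically contained in a family -/
theorem not_generic {n : ℕ} {k : Type*} [Field k] [Infinite k] {ι : Type*} [Fintype ι]
    (S : (Fin n × Fin n → k) → Set (Finset (Fin n))) (P : MvPolynomial (Fin n × Fin n) k)
    (hP : P ≠ 0) (f : ι → Finset (Fin n))
    (h : ∀ Θ : Fin n × Fin n → k, eval Θ P ≠ 0 → ¬ ∀ s, f s ∈ S Θ) :
    ¬ ∀ s, f s ∈ Generic S := by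
  classical
  intro hs
  choose Q hQ0 hQ using hs
  obtain ⟨Θ, hΘ⟩ : ∃ Θ : Fin n × Fin n → k, eval Θ (P * ∏ s, Q s) ≠ 0 := by
    by_contra hcon
    push Not at hcon
    apply mul_ne_zero hP (prod_ne_zero_iff.2 (fun s _ => hQ0 s))
    apply MvPolynomial.funext
    intro g
    rw [hcon g, map_zero]
  rw [map_mul, map_prod] at hΘ
  exact h Θ (left_ne_zero_of_mul hΘ) (fun s => hQ s Θ
    (prod_ne_zero_iff.1 (right_ne_zero_of_mul hΘ) s (mem_univ s)))

/-- Coloured shifting of all types of complexes with vanishing obstruction, and cases of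
vanishing. -/
theorem result (k : Type) [Field k] [Infinite k] (hk : CharZero k ∨ CharP k 2) (n δ : ℕ)
    (K : Finset (Finset (Fin n))) (hK : IsComplex K) :
    (∀ κ : Fin n → Fin (δ + 1), ObstructionVanishes K (2 * δ + 1) →
      Admissible κ (fun _ => 1) →
      ¬ ContainsJoin (δ + 1) (Generic (fun Θ => shiftWith κ k Θ K)) ∧
      ∃ P : MvPolynomial (Fin n × Fin n) k, P ≠ 0 ∧ ∀ Θ : Fin n × Fin n → k, eval Θ P ≠ 0 →
        ¬ ContainsJoin (δ + 1) (shiftWith κ k Θ K)) ∧
    (∀ (m : ℕ) (κ : Fin n → Fin (m + 1)) (a : Fin (m + 1) → ℕ), ∑ i, a i = δ + 1 →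
      ObstructionVanishes K (2 * δ + 1) → Admissible κ a →
      ¬ ContainsSkeletonJoin κ a (Generic (fun Θ => colouredShiftWith κ a k Θ K)) ∧
      ∃ P : MvPolynomial (Fin n × Fin n) k, P ≠ 0 ∧ ∀ Θ : Fin n × Fin n → k, eval Θ P ≠ 0 →
        ¬ ContainsSkeletonJoin κ a (colouredShiftWith κ a k Θ K)) ∧
    (HasOddMap K (2 * δ + 1) → ObstructionVanishes K (2 * δ + 1)) ∧
    (EmbedsInSphere K (2 * δ + 1) → AlmostEmbeds K (2 * δ + 1)) ∧
    (AlmostEmbeds K (2 * δ + 1) → HasOddMap K (2 * δ + 1)) ∧
    (InHomologySphere K (2 * δ + 1) → ObstructionVanishes K (2 * δ + 1)) := by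
  classical
  refine ⟨fun κ h hadm => ?_, fun m κ a ha h hadm => ?_, fun h => ?_, fun h => ?_, fun h => ?_,
    fun h => ?_⟩
  · obtain ⟨P, hP, hc⟩ := Y408.BS.core t1e W646.KS.ind k hk K κ (fun _ => 1) id hK (vk_of h)
      (fun i => by
        show (univ.filter (fun j => j = i)).card = 1
        rw [Finset.card_eq_one]
        exact ⟨i, by ext j; simp⟩)
    have h2 : ∀ Θ : Fin n × Fin n → k, eval Θ P ≠ 0 →
        ¬ ContainsJoin (δ + 1) (shiftWith κ k Θ K) := by
      intro Θ hΘ hcont
      obtain ⟨t, ht1, ht2, ht3⟩ := W636.KS.contains_imp κ _ (fun F hF => hF.1) hcont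
      have h3 := hc Θ hΘ t (fun j => ht1 j) (fun j => by simpa using ht2 j)
      refine ht3.2 ?_
      have e1 : ∏ v ∈ univ.image t, theta κ Θ v = ∏ j, theta κ Θ (t j) :=
        W636.KS.prod_image_theta κ Θ t ht1
      rw [e1]
      refine Submodule.span_mono ?_ h3
      rintro y ⟨t', ht', ⟨j, hj⟩, rfl⟩
      have ht'' : ∀ i, κ (t' i) = i := ht'
      refine ⟨univ.image t', W636.KS.injOn_image κ t' ht'', ?_, ?_, ?_⟩
      · rw [W636.KS.image_image κ t' ht'', W636.KS.image_image κ t ht1]
      · refine W636.KS.lexLT_of κ ?_ _ _ ?_ (t' j) (Finset.mem_image_of_mem _ (mem_univ _)) ?_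
        · intro u v huv hu
          exact hadm u v huv hu
        · intro x hx
          obtain ⟨i, _, rfl⟩ := Finset.mem_image.mp hx
          exact ht2 i
        · simpa using hj
      · have e2 : ∏ v ∈ univ.image t', theta κ Θ v = ∏ j, theta κ Θ (t' j) :=
          W636.KS.prod_image_theta κ Θ t' ht''
        rw [e2]
        rfl
    refine ⟨?_, P, hP, h2⟩
    rintro ⟨e, he, hs⟩
    exact not_generic (fun Θ => shiftWith κ k Θ K) P hP
      (fun s : Fin (δ + 1) → Fin 3 => univ.image (fun i => e (i, s i)))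
      (fun Θ hΘ hs' => h2 Θ hΘ ⟨e, he, hs'⟩) hs
  · obtain ⟨P, hP, hc⟩ := Y408.BS.not_mem_cshift t1e W646.KS.ind k hk K κ a hK ha (vk_of h) hadm
    have h2 : ∀ Θ : Fin n × Fin n → k, eval Θ P ≠ 0 →
        ¬ ContainsSkeletonJoin κ a (colouredShiftWith κ a k Θ K) := by
      intro Θ hΘ hcont
      obtain ⟨F, hF1, hF2, hF3⟩ := Y408.BS.containsSk_imp hcont
      exact hc Θ hΘ F hF2 hF3 hF1
    refine ⟨?_, P, hP, h2⟩
    rintro ⟨W, hW, hs⟩
    exact not_generic (fun Θ => colouredShiftWith κ a k Θ K) P hP
      (fun s : {F // F ⊆ W ∧ ∀ i, (F.filter (fun v => κ v = i)).card = a i} => s.1)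
      (fun Θ hΘ hs' => h2 Θ hΘ ⟨W, hW, fun F h1 h2 => hs' ⟨F, h1, h2⟩⟩)
      (fun s => hs s.1 s.2.1 s.2.2)
  · have hV := Y131.KS.vk2_of_odd (L := K) (d := 2 * δ + 1) hK h
    intro Z h1 h2 h3
    exact hV Z h1 h2 (fun ρ τ a b => h3 ρ τ a (by omega))
  · obtain ⟨f, hf⟩ := h
    refine ⟨f, hf.continuous, ?_⟩
    intro x y hxy hfe
    have e := hf.injective hfe
    subst e
    have h0 : ∀ i, (x : Fin n → ℝ) i = 0 := fun i => (hxy i).elim _root_.id _root_.id
    have h1 := x.2.2.1
    rw [sum_eq_zero (fun i _ => h0 i)] at h1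
    exact zero_ne_one h1
  · obtain ⟨f, hf, hi⟩ := h
    refine Y131.KS.odd_of_coneEmb (L := K) (d := 2 * δ + 1) hK (Y131.KS.cone_of_almost K
      (fun x => if hx : x ∈ realization K then (f ⟨x, hx⟩ : EuclideanSpace ℝ (Fin (2 * δ + 1)))
        else 0) ?_ ?_ ?_)
    · rw [continuousOn_iff_continuous_domRestrict]
      have h0 : Continuous (fun x : realization K => (f x : EuclideanSpace ℝ (Fin (2 * δ + 1)))) :=
        continuous_subtype_val.comp hf
      refine h0.congr ?_
      intro x
      have hx : (x : Fin n → ℝ) ∈ realization K := x.2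
      show (f x : EuclideanSpace ℝ (Fin (2 * δ + 1))) =
        if hx : (x : Fin n → ℝ) ∈ realization K then
        (f ⟨(x : Fin n → ℝ), hx⟩ : EuclideanSpace ℝ (Fin (2 * δ + 1))) else 0
      rw [dif_pos hx]
    · intro x hx
      have hx' : x ∈ realization K := hx
      rw [dif_pos hx']
      exact mem_sphere_zero_iff_norm.1 (f ⟨x, hx'⟩).2
    · intro x hx y hy hxy he
      have hx' : x ∈ realization K := hx
      have hy' : y ∈ realization K := hy
      rw [dif_pos hx', dif_pos hy'] at he
      exact hi ⟨x, hx'⟩ ⟨y, hy'⟩ hxy (Subtype.ext he)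
  · obtain ⟨N, K', f, hK', hf⟩ := h
    have hH : Y131.KS.HSph K' (2 * δ + 1) := ⟨hK'.1, hK'.2.1, hK'.2.2.1, hK'.2.2.2⟩
    have hV := Y131.KS.vk2_of_sphere hH f hf
    intro Z h1 h2 h3
    exact hV Z h1 h2 (fun ρ τ a b => h3 ρ τ a (by omega))

end Pool.Agent.Results.MP_55fadc_co.AllTypes
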